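import Mathlib

/-!
# Bootstrap percolation with an arbitrary update family on the square lattice: definitions
-/

set_option autoImplicit false

namespace Helper496.UBoot

open MeasureTheory Set
open scoped ENNReal

/-- The square lattice. -/
abbrev Site := ℤ × ℤ

/-- An update family: a finite nonempty collection of finite subsets of `ℤ² \ {0}`. -/
structure UpdateFamily where
  /-- the update rules -/
  rules : Finset (Finset Site)
  nonempty : rules.Nonempty
  zero_notMem : ∀ X ∈ rules, (0 : Site) ∉ X

/-- The open half-plane `{x : ⟨x, u⟩ < 0}` of `ℤ²`, for the unit vector `u = (cos θ, sin θ)`. -/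
def halfPlane (θ : ℝ) : Set Site := {x | (x.1 : ℝ) * Real.cos θ + (x.2 : ℝ) * Real.sin θ < 0}

/-- The Bernoulli measure on `Bool`: `true` (infected) has probability `p`. -/
noncomputable def bern (p : ℝ) : Measure Bool :=
  ENNReal.ofReal p • Measure.dirac true + ENNReal.ofReal (1 - p) • Measure.dirac false

/-- `P_p`: independent Bernoulli variables of parameter `p`, one for each site. -/
noncomputable def law (p : ℝ) : Measure (Site → Bool) := Measure.infinitePi fun _ => bern p

/-- The random initial set `A`. -/
def initial (ω : Site → Bool) : Set Site := {x | ω x = true}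

namespace UpdateFamily

variable (U : UpdateFamily)

/-- `A_t`: the set of sites infected at time `t`, started from `A`. -/
def infected (A : Set Site) : ℕ → Set Site
  | 0 => A
  | t + 1 => infected A t ∪ {x | ∃ X ∈ U.rules, ∀ y ∈ X, x + y ∈ infected A t}

/-- The closure `[A]`, the union of all `A_t`. -/
def closure (A : Set Site) : Set Site := ⋃ t, U.infected A t

/-- The direction `u = (cos θ, sin θ)` is stable: the half-plane `⟨x, u⟩ < 0` is closed. -/
def Stable (θ : ℝ) : Prop := U.closure (halfPlane θ) = halfPlane θ

/-- Subcritical: in every open semicircle (angles between `φ - π / 2` and `φ + π / 2`) the stable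
directions have positive arc length. -/
def Subcritical : Prop :=
  ∀ φ : ℝ, 0 < volume {θ ∈ Ioo (φ - Real.pi / 2) (φ + Real.pi / 2) | U.Stable θ}

/-- The event `[A] = ℤ²`. -/
def percolation : Set (Site → Bool) := {ω | U.closure (initial ω) = univ}

/-- The critical probability `inf {p : P_p([A] = ℤ²) = 1}`. -/
noncomputable def pc : ℝ := sInf {p : ℝ | 0 ≤ p ∧ p ≤ 1 ∧ law p U.percolation = 1}

/-- The occupation time `T` of the origin: the least `t` with `0 ∈ A_t`, and `∞` if there is no
such `t`. -/
noncomputable def time (ω : Site → Bool) : ℝ≥0∞ :=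
  ⨅ (t : ℕ) (_ : (0 : Site) ∈ U.infected (initial ω) t), (t : ℝ≥0∞)

end UpdateFamily

end Helper496.UBoot
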