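import Pool.Agent.Helper496_UBoot.Defs

/-!
# Bootstrap percolation with an arbitrary update family: the mean occupation time at criticality

The finite-size criterion: if the probability that some site of a block of side `L` is not infected
at time `2 L` is small, then the infection percolates at slightly smaller densities too. If the
infection percolates at density `p`, then a site infected at a finite time later than `2 L` sees
sites infected exactly one time unit earlier, two time units earlier, and so on; these are `L`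
different sites with a late infection. So that probability is at most a constant times
`L * P_p(T > L)`, which tends to `0` if the mean of `T` is finite.
-/

set_option autoImplicit false

namespace Helper496.UBoot

open MeasureTheory Set Filter Topology
open scoped ENNReal

namespace UpdateFamily

variable (U : UpdateFamily)

/-! ## Deterministic facts -/

theorem infected_subset_succ (A : Set Site) (t : ℕ) : U.infected A t ⊆ U.infected A (t + 1) :=
  subset_union_left

theorem infected_mono_time (A : Set Site) : Monotone (U.infected A) :=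
  monotone_nat_of_le_succ (U.infected_subset_succ A)

theorem infected_mono {A B : Set Site} (h : A ⊆ B) (t : ℕ) : U.infected A t ⊆ U.infected B t := by
  induction t with
  | zero => exact h
  | succ t ih =>
    rintro x (hx | ⟨X, hX, hx⟩)
    · exact Or.inl (ih hx)
    · exact Or.inr ⟨X, hX, fun y hy => ih (hx y hy)⟩

theorem infected_subset_closure (A : Set Site) (t : ℕ) : U.infected A t ⊆ U.closure A :=
  subset_iUnion (U.infected A) t

theorem closure_univ : U.closure univ = univ :=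
  eq_univ_of_univ_subset (U.infected_subset_closure univ 0)

/-- a site all of whose `X`-neighbours are in the closure is in the closure -/
theorem mem_closure_of_rule {A : Set Site} {X : Finset Site} (hX : X ∈ U.rules) {x : Site}
    (h : ∀ y ∈ X, x + y ∈ U.closure A) : x ∈ U.closure A := by
  have h1 : ∀ y ∈ X, ∃ t, x + y ∈ U.infected A t := fun y hy => mem_iUnion.mp (h y hy)
  choose! T hT using h1
  refine mem_iUnion.mpr ⟨X.sup T + 1, Or.inr ⟨X, hX, fun y hy => ?_⟩⟩
  exact U.infected_mono_time A (Finset.le_sup hy) (hT y hy)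

/-- the range of the family (in the supremum norm) -/
theorem exists_range : ∃ R : ℕ, 1 ≤ R ∧ ∀ X ∈ U.rules, ∀ y ∈ X, |y.1| ≤ R ∧ |y.2| ≤ R := by
  obtain ⟨N, hN⟩ : ∃ N : ℕ, ∀ X ∈ U.rules, ∀ y ∈ X, y.1.natAbs + y.2.natAbs ≤ N :=
    ⟨U.rules.sup (fun X => X.sup fun y => y.1.natAbs + y.2.natAbs), fun X hX y hy =>
      (Finset.le_sup (f := fun y : Site => y.1.natAbs + y.2.natAbs) hy).trans
        (Finset.le_sup (f := fun X : Finset Site => X.sup fun y => y.1.natAbs + y.2.natAbs) hX)⟩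
  refine ⟨N + 1, by omega, fun X hX y hy => ?_⟩
  have := hN X hX y hy
  constructor <;> exact abs_le.mpr ⟨by omega, by omega⟩

/-- `A_t` near `x` depends only on `A` near `x` -/
theorem infected_local {R : ℕ} (hR : ∀ X ∈ U.rules, ∀ y ∈ X, |y.1| ≤ R ∧ |y.2| ≤ R) (t : ℕ) :
    ∀ (A B : Set Site) (x : Site),
      (∀ z : Site, |z.1 - x.1| ≤ R * t → |z.2 - x.2| ≤ R * t → (z ∈ A ↔ z ∈ B)) →
      (x ∈ U.infected A t ↔ x ∈ U.infected B t) := by
  induction t with
  | zero => intro A B x h; exact h x (by simp) (by simp)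
  | succ t ih =>
    intro A B x h
    have key : ∀ z : Site, |z.1 - x.1| ≤ R → |z.2 - x.2| ≤ R →
        (z ∈ U.infected A t ↔ z ∈ U.infected B t) := by
      intro z h1 h2
      apply ih
      intro w h3 h4
      apply h
      · have := abs_sub_le w.1 z.1 x.1
        push_cast; linarith
      · have := abs_sub_le w.2 z.2 x.2
        push_cast; linarith
    have h0 : (x ∈ U.infected A t ↔ x ∈ U.infected B t) := key x (by simp) (by simp)
    constructor
    · rintro (hx | ⟨X, hX, hx⟩)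
      · exact Or.inl (h0.mp hx)
      · refine Or.inr ⟨X, hX, fun y hy => (key _ ?_ ?_).mp (hx y hy)⟩
        · simpa using (hR X hX y hy).1
        · simpa using (hR X hX y hy).2
    · rintro (hx | ⟨X, hX, hx⟩)
      · exact Or.inl (h0.mpr hx)
      · refine Or.inr ⟨X, hX, fun y hy => (key _ ?_ ?_).mpr (hx y hy)⟩
        · simpa using (hR X hX y hy).1
        · simpa using (hR X hX y hy).2

/-- translation -/
theorem infected_shift (A : Set Site) (v : Site) (t : ℕ) :
    ∀ x : Site, x ∈ U.infected {z | z + v ∈ A} t ↔ x + v ∈ U.infected A t := by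
  induction t with
  | zero => intro x; exact Iff.rfl
  | succ t ih =>
    intro x
    constructor
    · rintro (hx | ⟨X, hX, hx⟩)
      · exact Or.inl ((ih x).mp hx)
      · refine Or.inr ⟨X, hX, fun y hy => ?_⟩
        have := (ih (x + y)).mp (hx y hy)
        rwa [add_right_comm] at this
    · rintro (hx | ⟨X, hX, hx⟩)
      · exact Or.inl ((ih x).mpr hx)
      · refine Or.inr ⟨X, hX, fun y hy => (ih (x + y)).mpr ?_⟩
        rw [add_right_comm]; exact hx y hy

/-- a site infected exactly at time `n + 1` has a neighbour infected exactly at time `n` -/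
theorem exists_time_pred (hne : ∅ ∉ U.rules) {R : ℕ}
    (hR : ∀ X ∈ U.rules, ∀ y ∈ X, |y.1| ≤ R ∧ |y.2| ≤ R)
    (A : Set Site) (x : Site) (n : ℕ) (h1 : x ∈ U.infected A (n + 1)) (h2 : x ∉ U.infected A n) :
    ∃ z : Site, |z.1 - x.1| ≤ R ∧ |z.2 - x.2| ≤ R ∧ z ∈ U.infected A n ∧
      ∀ m < n, z ∉ U.infected A m := by
  rcases h1 with h1 | ⟨X, hX, hx⟩
  · exact absurd h1 h2
  have hXne : X.Nonempty := by
    rw [Finset.nonempty_iff_ne_empty]; rintro rfl; exact hne hX
  rcases n with _ | n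
  · obtain ⟨y, hy⟩ := hXne
    exact ⟨x + y, by simpa using (hR X hX y hy).1, by simpa using (hR X hX y hy).2, hx y hy,
      fun m hm => absurd hm (by omega)⟩
  · by_contra hcon
    push Not at hcon
    apply h2
    refine Or.inr ⟨X, hX, fun y hy => ?_⟩
    obtain ⟨m, hm, hm2⟩ := hcon (x + y) (by simpa using (hR X hX y hy).1)
      (by simpa using (hR X hX y hy).2) (hx y hy)
    exact U.infected_mono_time A (by omega) hm2

/-- a site infected exactly at time `n` sees, for each `k ≤ n`, a site infected exactly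
at time `n - k` within distance `R k` -/
theorem exists_time_sub (hne : ∅ ∉ U.rules) {R : ℕ}
    (hR : ∀ X ∈ U.rules, ∀ y ∈ X, |y.1| ≤ R ∧ |y.2| ≤ R)
    (A : Set Site) (x : Site) (n : ℕ) (h1 : x ∈ U.infected A n)
    (h2 : ∀ m < n, x ∉ U.infected A m) (k : ℕ) (hk : k ≤ n) :
    ∃ z : Site, |z.1 - x.1| ≤ R * k ∧ |z.2 - x.2| ≤ R * k ∧ z ∈ U.infected A (n - k) ∧
      ∀ m < n - k, z ∉ U.infected A m := by
  induction k with
  | zero => exact ⟨x, by simp, by simp, by simpa using h1, by simpa using h2⟩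
  | succ k ih =>
    obtain ⟨z, hz1, hz2, hz3, hz4⟩ := ih (by omega)
    obtain ⟨j, hj⟩ : ∃ j, n - k = j + 1 := ⟨n - k - 1, by omega⟩
    rw [hj] at hz3 hz4
    obtain ⟨w, hw1, hw2, hw3, hw4⟩ := U.exists_time_pred hne hR A z j hz3 (hz4 j (by omega))
    have hj2 : n - (k + 1) = j := by omega
    rw [hj2]
    refine ⟨w, ?_, ?_, hw3, hw4⟩
    · have := abs_sub_le w.1 z.1 x.1
      push_cast; linarith
    · have := abs_sub_le w.2 z.2 x.2
      push_cast; linarith

/-- the square box of radius `r` around `x` -/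
noncomputable def box (x : Site) (r : ℕ) : Finset Site :=
  Finset.Icc (x.1 - r) (x.1 + r) ×ˢ Finset.Icc (x.2 - r) (x.2 + r)

theorem mem_box {x z : Site} {r : ℕ} : z ∈ box x r ↔ |z.1 - x.1| ≤ r ∧ |z.2 - x.2| ≤ r := by
  simp only [box, Finset.mem_product, Finset.mem_Icc, abs_le]
  constructor
  · rintro ⟨⟨h1, h2⟩, h3, h4⟩; exact ⟨⟨by linarith, by linarith⟩, by linarith, by linarith⟩
  · rintro ⟨⟨h1, h2⟩, h3, h4⟩; exact ⟨⟨by linarith, by linarith⟩, by linarith, by linarith⟩

theorem card_box (x : Site) (r : ℕ) : (box x r).card = (2 * r + 1) ^ 2 := by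
  simp only [box, Finset.card_product, Int.card_Icc]
  have h : ∀ a : ℤ, (a + r + 1 - (a - r)).toNat = 2 * r + 1 := fun a => by omega
  rw [h, h]; ring

/-- the key counting: a site infected after time `2 M` (but infected at some time) sees at least
`M + 1` sites not infected at time `M` in its box of radius `R M` -/
theorem many_late (hne : ∅ ∉ U.rules) {R : ℕ}
    (hR : ∀ X ∈ U.rules, ∀ y ∈ X, |y.1| ≤ R ∧ |y.2| ≤ R)
    (A : Set Site) (x : Site) (M : ℕ) (h1 : x ∈ U.closure A) (h2 : x ∉ U.infected A (2 * M)) :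
    ∃ S : Finset Site, S ⊆ box x (R * M) ∧ M + 1 ≤ S.card ∧ ∀ z ∈ S, z ∉ U.infected A M := by
  classical
  obtain ⟨n0, hn0⟩ := mem_iUnion.mp h1
  have hex : ∃ n, x ∈ U.infected A n := ⟨n0, hn0⟩
  set n := Nat.find hex with hn
  have hn1 : x ∈ U.infected A n := Nat.find_spec hex
  have hn2 : ∀ m < n, x ∉ U.infected A m := fun m hm => Nat.find_min hex hm
  have hn3 : 2 * M < n := by
    by_contra hcon
    exact h2 (U.infected_mono_time A (by omega) hn1)
  have h3 : ∀ k : Fin (M + 1), ∃ z : Site, |z.1 - x.1| ≤ R * (k : ℕ) ∧ |z.2 - x.2| ≤ R * (k : ℕ) ∧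
      z ∈ U.infected A (n - k) ∧ ∀ m < n - (k : ℕ), z ∉ U.infected A m :=
    fun k => U.exists_time_sub hne hR A x n hn1 hn2 k (by omega)
  choose z hz1 hz2 hz3 hz4 using h3
  have hinj : Function.Injective z := by
    intro i j hij
    by_contra hne'
    have hlt : (i : ℕ) < j ∨ (j : ℕ) < i := by
      rcases lt_trichotomy (i : ℕ) j with h | h | h
      · exact Or.inl h
      · exact absurd (Fin.ext h) hne'
      · exact Or.inr h
    rcases hlt with h | h
    · exact hz4 i (n - j) (by omega) (hij ▸ hz3 j)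
    · exact hz4 j (n - i) (by omega) (hij ▸ hz3 i)
  refine ⟨Finset.univ.image z, ?_, ?_, ?_⟩
  · intro w hw
    obtain ⟨k, -, rfl⟩ := Finset.mem_image.mp hw
    rw [mem_box]
    have hk : ((k : ℕ) : ℤ) ≤ M := by exact_mod_cast Nat.lt_succ_iff.mp k.2
    have hRk : (R : ℤ) * (k : ℕ) ≤ R * M := mul_le_mul_of_nonneg_left hk (by positivity)
    push_cast
    exact ⟨(hz1 k).trans hRk, (hz2 k).trans hRk⟩
  · rw [Finset.card_image_of_injective _ hinj]; simp
  · intro w hw
    obtain ⟨k, -, rfl⟩ := Finset.mem_image.mp hw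
    exact hz4 k M (by omega)

/-- a family of sites each having, for each rule, a neighbour in the family is never infected -/
theorem notMem_closure_of_healthy {A K : Set Site} (hK : ∀ x ∈ K, ∀ X ∈ U.rules, ∃ y ∈ X, x + y ∈ K)
    (hA : ∀ x ∈ K, x ∉ A) : ∀ x ∈ K, x ∉ U.closure A := by
  have h : ∀ t, ∀ x ∈ K, x ∉ U.infected A t := by
    intro t
    induction t with
    | zero => exact hA
    | succ t ih =>
      rintro x hx (h1 | ⟨X, hX, h1⟩)
      · exact ih x hx h1
      · obtain ⟨y, hy, hxy⟩ := hK x hx X hX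
        exact ih _ hxy (h1 y hy)
  intro x hx hcl
  obtain ⟨t, ht⟩ := mem_iUnion.mp hcl
  exact h t x hx ht


/-! ## The product measure -/

section Prob

open ProbabilityTheory

variable {p : ℝ}

theorem bern_prob (h0 : 0 ≤ p) (h1 : p ≤ 1) : IsProbabilityMeasure (bern p) := by
  refine ⟨?_⟩
  have : ENNReal.ofReal p + ENNReal.ofReal (1 - p) = 1 := by
    rw [← ENNReal.ofReal_add h0 (by linarith)]; simp
  simpa [bern] using this

theorem bern_true : bern p {true} = ENNReal.ofReal p := by simp [bern]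

theorem bern_false : bern p {false} = ENNReal.ofReal (1 - p) := by simp [bern]

/-- the event depends only on the sites of `S` -/
def DepOn (S : Finset Site) (E : Set (Site → Bool)) : Prop :=
  ∀ ω ω' : Site → Bool, (∀ x ∈ S, ω x = ω' x) → ω ∈ E → ω' ∈ E

theorem DepOn.eq_preimage {S : Finset Site} {E : Set (Site → Bool)} (h : DepOn S E) :
    E = S.restrict ⁻¹' (S.restrict '' E) := by
  apply Subset.antisymm (subset_preimage_image _ _)
  rintro ω ⟨ω', h1, h2⟩
  refine h ω' ω (fun x hx => ?_) h1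
  exact congrFun h2 ⟨x, hx⟩

theorem DepOn.mono {S T : Finset Site} {E : Set (Site → Bool)} (h : DepOn S E) (hST : S ⊆ T) :
    DepOn T E := fun ω ω' h1 h2 => h ω ω' (fun x hx => h1 x (hST hx)) h2

theorem DepOn.inter {S : Finset Site} {E F : Set (Site → Bool)} (h : DepOn S E) (h' : DepOn S F) :
    DepOn S (E ∩ F) := fun ω ω' h1 h2 => ⟨h ω ω' h1 h2.1, h' ω ω' h1 h2.2⟩

theorem measurableSet_local {S : Finset Site} (E : Set ((i : S) → Bool)) : MeasurableSet E :=
  (Set.toFinite E).measurableSet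

theorem DepOn.measurableSet {S : Finset Site} {E : Set (Site → Bool)} (h : DepOn S E) :
    MeasurableSet E := by
  rw [h.eq_preimage]
  exact (measurableSet_local _).preimage (Finset.measurable_restrict S)

theorem law_prob (h0 : 0 ≤ p) (h1 : p ≤ 1) : IsProbabilityMeasure (law p) := by
  have := bern_prob h0 h1
  unfold law; infer_instance

theorem law_inter (h0 : 0 ≤ p) (h1 : p ≤ 1) {S T : Finset Site} {E F : Set (Site → Bool)}
    (hE : DepOn S E) (hF : DepOn T F) (hST : Disjoint S T) :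
    law p (E ∩ F) = law p E * law p F := by
  have := bern_prob h0 h1
  have hi : iIndepFun (fun (i : Site) (ω : Site → Bool) => ω i) (law p) :=
    iIndepFun_infinitePi (P := fun _ : Site => bern p) (X := fun _ b => b) (fun _ => measurable_id)
  have h2 := hi.indepFun_finset S T hST (fun i => measurable_pi_apply i)
  have h3 := h2.measure_inter_preimage_eq_mul (S.restrict '' E) (T.restrict '' F)
    (measurableSet_local _) (measurableSet_local _)
  have e1 : (fun a (i : S) => a i) ⁻¹' (S.restrict '' E) = E := hE.eq_preimage.symm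
  have e2 : (fun a (i : T) => a i) ⁻¹' (T.restrict '' F) = F := hF.eq_preimage.symm
  rw [e1, e2] at h3
  exact h3

theorem law_shift (h0 : 0 ≤ p) (h1 : p ≤ 1) (v : Site) {E : Set (Site → Bool)}
    (hE : MeasurableSet E) : law p {ω | (fun x => ω (x + v)) ∈ E} = law p E := by
  have := bern_prob h0 h1
  have h := Measure.map_infinitePi_infinitePi_of_inj (P := fun _ : Site => bern p)
    (f := fun x : Site => x + v) (add_left_injective v)
  have hm : Measurable (fun (ω : Site → Bool) (x : Site) => ω (x + v)) := by fun_prop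
  have h2 : (law p).map (fun ω x => ω (x + v)) E = law p E := by
    unfold law; rw [h]
  rw [Measure.map_apply hm hE] at h2
  exact h2

/-- probabilities of local events are continuous in the density -/
theorem law_continuous {S : Finset Site} {E : Set (Site → Bool)} (hE : DepOn S E) :
    ∃ g : ℝ → ℝ, Continuous g ∧ ∀ p, 0 ≤ p → p ≤ 1 → law p E = ENNReal.ofReal (g p) := by
  classical
  refine ⟨fun p => ∑ f ∈ (Set.toFinite (S.restrict '' E)).toFinset,
    ∏ x : S, (if f x = true then p else 1 - p), ?_, fun p h0 h1 => ?_⟩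
  · refine continuous_finsetSum _ fun f _ => continuous_finsetProd _ fun x _ => ?_
    split_ifs <;> fun_prop
  · have := bern_prob h0 h1
    have h2 : law p E = Measure.pi (fun _ : S => bern p) (S.restrict '' E) := by
      conv_lhs => rw [hE.eq_preimage]
      rw [← Measure.map_apply (Finset.measurable_restrict S) (measurableSet_local _)]
      unfold law
      rw [Measure.infinitePi_map_restrict]
    rw [h2, ENNReal.ofReal_sum_of_nonneg]
    · have h3 : (S.restrict '' E) = ((Set.toFinite (S.restrict '' E)).toFinset : Set (S → Bool)) := by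
        simp
      conv_lhs => rw [h3]
      rw [← sum_measure_singleton]
      refine Finset.sum_congr rfl fun f _ => ?_
      rw [Measure.pi_singleton, ENNReal.ofReal_prod_of_nonneg]
      · refine Finset.prod_congr rfl fun x _ => ?_
        cases hf : f x
        · simp [bern_false]
        · simp [bern_true]
      · intro x _
        split_ifs
        · exact h0
        · linarith
    · intro f _
      refine Finset.prod_nonneg fun x _ => ?_
      split_ifs
      · exact h0
      · linarith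

end Prob

/-! ## Blocks -/

/-- the block with index `v` -/
noncomputable def block (L : ℕ) (v : Site) : Finset Site :=
  Finset.Ico ((L : ℤ) * v.1) (L * v.1 + L) ×ˢ Finset.Ico ((L : ℤ) * v.2) (L * v.2 + L)

theorem mem_block {L : ℕ} {v x : Site} : x ∈ block L v ↔
    ((L : ℤ) * v.1 ≤ x.1 ∧ x.1 < L * v.1 + L) ∧ ((L : ℤ) * v.2 ≤ x.2 ∧ x.2 < L * v.2 + L) := by
  simp [block]

/-- the index of the block of `x` -/
def blk (L : ℕ) (x : Site) : Site := (x.1 / L, x.2 / L)

theorem mem_block_blk {L : ℕ} (hL : 1 ≤ L) (x : Site) : x ∈ block L (blk L x) := by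
  have hL' : (0 : ℤ) < L := by exact_mod_cast hL
  rw [mem_block]
  simp only [blk]
  refine ⟨⟨Int.mul_ediv_self_le hL'.ne', ?_⟩, ⟨Int.mul_ediv_self_le hL'.ne', ?_⟩⟩
  · have := Int.lt_mul_ediv_self_add (x := x.1) hL'; linarith
  · have := Int.lt_mul_ediv_self_add (x := x.2) hL'; linarith

theorem ediv_step {L : ℕ} (hL : 1 ≤ L) {a b : ℤ} (h : |a - b| ≤ L) :
    |a / (L : ℤ) - b / L| ≤ 1 := by
  have hL' : (0 : ℤ) < L := by exact_mod_cast hL
  rw [abs_le] at h
  have h1 : a / (L : ℤ) ≤ (b + L) / L := Int.ediv_le_ediv hL' (by linarith [h.2])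
  have h2 : (b - L) / (L : ℤ) ≤ a / L := Int.ediv_le_ediv hL' (by linarith [h.1])
  have e1 : (b + L) / (L : ℤ) = b / L + 1 := by
    rw [Int.add_ediv_of_dvd_right (dvd_refl _), Int.ediv_self hL'.ne']
  have e2 : (b - L) / (L : ℤ) = b / L - 1 := by
    rw [Int.sub_ediv_of_dvd _ (dvd_refl _), Int.ediv_self hL'.ne']
  rw [e1] at h1
  rw [e2] at h2
  rw [abs_le]
  constructor <;> linarith

/-- the block contains a site not infected at time `2 L` -/
def bad (L : ℕ) (v : Site) : Set (Site → Bool) :=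
  {ω | ∃ x ∈ block L v, x ∉ U.infected (initial ω) (2 * L)}

/-- the sites which matter for `bad` -/
noncomputable def nbhd (R L : ℕ) (v : Site) : Finset Site :=
  Finset.Icc ((L : ℤ) * v.1 - 2 * R * L) (L * v.1 + L + 2 * R * L) ×ˢ
    Finset.Icc ((L : ℤ) * v.2 - 2 * R * L) (L * v.2 + L + 2 * R * L)

theorem infected_depOn {R : ℕ} (hR : ∀ X ∈ U.rules, ∀ y ∈ X, |y.1| ≤ R ∧ |y.2| ≤ R)
    (x : Site) (t : ℕ) : DepOn (box x (R * t)) {ω | x ∈ U.infected (initial ω) t} := by
  intro ω ω' h h1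
  refine (U.infected_local hR t (initial ω) (initial ω') x fun z h2 h3 => ?_).mp h1
  have hz : z ∈ box x (R * t) := mem_box.mpr ⟨by push_cast; exact h2, by push_cast; exact h3⟩
  simp only [initial, mem_setOf_eq, h z hz]

theorem notInfected_depOn {R : ℕ} (hR : ∀ X ∈ U.rules, ∀ y ∈ X, |y.1| ≤ R ∧ |y.2| ≤ R)
    (x : Site) (t : ℕ) : DepOn (box x (R * t)) {ω | x ∉ U.infected (initial ω) t} := by
  intro ω ω' h h1 h2
  exact h1 (U.infected_depOn hR x t ω' ω (fun z hz => (h z hz).symm) h2)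

theorem bad_depOn {R : ℕ} (hR : ∀ X ∈ U.rules, ∀ y ∈ X, |y.1| ≤ R ∧ |y.2| ≤ R)
    (L : ℕ) (v : Site) : DepOn (nbhd R L v) (U.bad L v) := by
  rintro ω ω' h ⟨x, hx, h1⟩
  refine ⟨x, hx, ?_⟩
  refine U.notInfected_depOn hR x (2 * L) ω ω' (fun z hz => h z ?_) h1
  rw [mem_box] at hz
  rw [mem_block] at hx
  obtain ⟨hz1, hz2⟩ := hz
  rw [abs_le] at hz1 hz2
  push_cast at hz1 hz2
  simp only [nbhd, Finset.mem_product, Finset.mem_Icc]
  refine ⟨⟨?_, ?_⟩, ?_, ?_⟩ <;> nlinarith [hx.1.1, hx.1.2, hx.2.1, hx.2.2]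

/-- far apart -/
def Far (K : ℕ) (v w : Site) : Prop := (K : ℤ) ≤ |v.1 - w.1| ∨ (K : ℤ) ≤ |v.2 - w.2|

theorem nbhd_disjoint {R L : ℕ} (hL : 1 ≤ L) {v w : Site} (h : Far (4 * R + 2) v w) :
    Disjoint (nbhd R L v) (nbhd R L w) := by
  have hL' : (1 : ℤ) ≤ L := by exact_mod_cast hL
  have hR0 : (0 : ℤ) ≤ R := by positivity
  have key : ∀ a b : ℤ, ((4 * R + 2 : ℕ) : ℤ) ≤ |a - b| → ∀ z : ℤ,
      (L : ℤ) * a - 2 * R * L ≤ z → z ≤ L * a + L + 2 * R * L →
      (L : ℤ) * b - 2 * R * L ≤ z → z ≤ L * b + L + 2 * R * L → False := by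
    intro a b hab z h1 h2 h3 h4
    push_cast at hab
    rcases le_total a b with hle | hle
    · rw [abs_of_nonpos (by linarith)] at hab
      nlinarith [mul_le_mul_of_nonneg_left hab (by linarith : (0 : ℤ) ≤ L)]
    · rw [abs_of_nonneg (by linarith)] at hab
      nlinarith [mul_le_mul_of_nonneg_left hab (by linarith : (0 : ℤ) ≤ L)]
  rw [Finset.disjoint_left]
  intro z hz hz'
  simp only [nbhd, Finset.mem_product, Finset.mem_Icc] at hz hz'
  rcases h with h | h
  · exact key _ _ h z.1 hz.1.1 hz.1.2 hz'.1.1 hz'.1.2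
  · exact key _ _ h z.2 hz.2.1 hz.2.2 hz'.2.1 hz'.2.2

theorem initial_shift (ω : Site → Bool) (v : Site) :
    initial (fun x => ω (x + v)) = {z | z + v ∈ initial ω} := rfl

theorem law_bad {p : ℝ} (h0 : 0 ≤ p) (h1 : p ≤ 1) (L : ℕ) (v : Site) :
    law p (U.bad L v) = law p (U.bad L 0) := by
  obtain ⟨R, -, hR⟩ := U.exists_range
  rw [← law_shift h0 h1 ((L : ℤ) * v.1, (L : ℤ) * v.2) (U.bad_depOn hR L 0).measurableSet]
  congr 1
  ext ω
  simp only [bad, mem_setOf_eq, initial_shift]
  constructor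
  · rintro ⟨x, hx, h⟩
    rw [mem_block] at hx
    refine ⟨(x.1 - L * v.1, x.2 - L * v.2), ?_, ?_⟩
    · rw [mem_block]
      refine ⟨⟨?_, ?_⟩, ?_, ?_⟩ <;> simp <;> linarith [hx.1.1, hx.1.2, hx.2.1, hx.2.2]
    · rw [U.infected_shift]
      simpa using h
  · rintro ⟨x, hx, h⟩
    rw [mem_block] at hx
    simp only [Prod.fst_zero, Prod.snd_zero, mul_zero, zero_add] at hx
    refine ⟨(x.1 + L * v.1, x.2 + L * v.2), ?_, ?_⟩
    · rw [mem_block]
      refine ⟨⟨?_, ?_⟩, ?_, ?_⟩ <;> simp <;> linarith [hx.1.1, hx.1.2, hx.2.1, hx.2.2]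
    · rw [U.infected_shift] at h
      exact h

theorem law_late {p : ℝ} (h0 : 0 ≤ p) (h1 : p ≤ 1) (x : Site) (t : ℕ) :
    law p {ω | x ∉ U.infected (initial ω) t} = law p {ω | (0 : Site) ∉ U.infected (initial ω) t} := by
  obtain ⟨R, -, hR⟩ := U.exists_range
  rw [← law_shift h0 h1 x (U.notInfected_depOn hR 0 t).measurableSet]
  congr 1
  ext ω
  simp only [mem_setOf_eq, initial_shift]
  rw [U.infected_shift, zero_add]

/-- all blocks of the list are bad -/
def allBad (L : ℕ) (l : List Site) : Set (Site → Bool) := {ω | ∀ v ∈ l, ω ∈ U.bad L v}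

theorem allBad_depOn {R : ℕ} (hR : ∀ X ∈ U.rules, ∀ y ∈ X, |y.1| ≤ R ∧ |y.2| ≤ R)
    (L : ℕ) (l : List Site) : DepOn (l.toFinset.biUnion (nbhd R L)) (U.allBad L l) := by
  intro ω ω' h h1 v hv
  refine U.bad_depOn hR L v ω ω' (fun x hx => h x ?_) (h1 v hv)
  exact Finset.mem_biUnion.mpr ⟨v, List.mem_toFinset.mpr hv, hx⟩

theorem law_allBad {p : ℝ} (h0 : 0 ≤ p) (h1 : p ≤ 1) {R : ℕ}
    (hR : ∀ X ∈ U.rules, ∀ y ∈ X, |y.1| ≤ R ∧ |y.2| ≤ R) {L : ℕ} (hL : 1 ≤ L) (l : List Site)
    (hl : l.Pairwise (Far (4 * R + 2))) :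
    law p (U.allBad L l) = law p (U.bad L 0) ^ l.length := by
  have := law_prob h0 h1
  induction l with
  | nil =>
    have : U.allBad L [] = univ := by ext ω; simp [allBad]
    rw [this]; simp
  | cons v l ih =>
    rw [List.pairwise_cons] at hl
    have e : U.allBad L (v :: l) = U.bad L v ∩ U.allBad L l := by
      ext ω; simp [allBad]
    rw [e, law_inter h0 h1 (U.bad_depOn hR L v) (U.allBad_depOn hR L l), ih hl.2, U.law_bad h0 h1,
      List.length_cons, pow_succ']
    rw [Finset.disjoint_biUnion_right]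
    intro w hw
    exact nbhd_disjoint hL (hl.1 w (List.mem_toFinset.mp hw))

/-- chains of `n + 1` blocks (most recent first) starting at `v`, with steps at most `K` -/
noncomputable def chains (K : ℕ) (v : Site) : ℕ → Finset (List Site)
  | 0 => {[v]}
  | n + 1 => (chains K v n ×ˢ box 0 K).image fun q => (q.1.headD 0 + q.2) :: q.1

theorem card_chains (K : ℕ) (v : Site) (n : ℕ) :
    (chains K v n).card ≤ ((2 * K + 1) ^ 2) ^ n := by
  induction n with
  | zero => simp [chains]
  | succ n ih =>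
    rw [chains]
    refine Finset.card_image_le.trans ?_
    rw [Finset.card_product, card_box, pow_succ]
    exact Nat.mul_le_mul_right _ ih

theorem length_chains (K : ℕ) (v : Site) (n : ℕ) : ∀ l ∈ chains K v n, l.length = n + 1 := by
  induction n with
  | zero => intro l hl; simp [chains] at hl; simp [hl]
  | succ n ih =>
    intro l hl
    rw [chains] at hl
    obtain ⟨q, hq, rfl⟩ := Finset.mem_image.mp hl
    rw [List.length_cons, ih _ (Finset.mem_product.mp hq).1]

theorem far_of_notMem_box {K : ℕ} (hK : 1 ≤ K) {v w : Site} (h : v ∉ box w (K - 1)) : Far K v w := by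
  rw [mem_box] at h
  unfold Far
  have e : ((K - 1 : ℕ) : ℤ) = K - 1 := by push_cast [hK]; ring
  rw [e] at h
  by_contra hcon
  push Not at hcon
  exact h ⟨by linarith [hcon.1], by linarith [hcon.2]⟩

/-- extraction of a chain of pairwise distant points from a sequence which leaves every box -/
theorem exists_chain (b : ℕ → Site) {K : ℕ} (hK : 1 ≤ K)
    (hstep : ∀ i, |(b (i + 1)).1 - (b i).1| ≤ 1 ∧ |(b (i + 1)).2 - (b i).2| ≤ 1)
    (hfin : ∀ v, {i | b i ∈ box v (K - 1)}.Finite) (n : ℕ) :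
    ∃ (j : ℕ) (l : List Site), (b j :: l) ∈ chains K (b 0) n ∧ (∀ v ∈ l, ∃ i, v = b i) ∧
      (b j :: l).Pairwise (Far K) ∧ ∀ v ∈ l, ∀ i, j ≤ i → Far K (b i) v := by
  induction n with
  | zero => exact ⟨0, [], by simp [chains], by simp, by simp, by simp⟩
  | succ n ih =>
    obtain ⟨j, l, h1, h2, h3, h4⟩ := ih
    have hjs : j ∈ (hfin (b j)).toFinset := by
      rw [Set.Finite.mem_toFinset]
      exact mem_box.mpr ⟨by simp, by simp⟩
    obtain ⟨m, hm, hmax⟩ := Finset.exists_max_image (hfin (b j)).toFinset id ⟨j, hjs⟩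
    have hjm : j ≤ m := hmax j hjs
    rw [Set.Finite.mem_toFinset] at hm
    have hlate : ∀ i, m + 1 ≤ i → Far K (b i) (b j) := by
      intro i hi
      refine far_of_notMem_box hK fun hb => ?_
      have := hmax i (by rw [Set.Finite.mem_toFinset]; exact hb)
      simp only [id] at this
      omega
    refine ⟨m + 1, b j :: l, ?_, ?_, ?_, ?_⟩
    · rw [chains]
      refine Finset.mem_image.mpr ⟨(b j :: l, b (m + 1) - b j), ?_, ?_⟩
      · refine Finset.mem_product.mpr ⟨h1, ?_⟩
        have hm' : b m ∈ box (b j) (K - 1) := hm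
        rw [mem_box] at hm' ⊢
        have e : ((K - 1 : ℕ) : ℤ) = K - 1 := by push_cast [hK]; ring
        rw [e] at hm'
        have hs := hstep m
        have t1 := abs_sub_le (b (m + 1)).1 (b m).1 (b j).1
        have t2 := abs_sub_le (b (m + 1)).2 (b m).2 (b j).2
        constructor
        · simp only [Prod.fst_sub, Prod.fst_zero, sub_zero]; linarith [hs.1, hm'.1]
        · simp only [Prod.snd_sub, Prod.snd_zero, sub_zero]; linarith [hs.2, hm'.2]
      · simp
    · intro v hv
      rcases List.mem_cons.mp hv with rfl | hv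
      · exact ⟨j, rfl⟩
      · exact h2 v hv
    · rw [List.pairwise_cons]
      refine ⟨fun v hv => ?_, h3⟩
      rcases List.mem_cons.mp hv with rfl | hv
      · exact hlate _ le_rfl
      · exact h4 v hv _ (by omega)
    · intro v hv i hi
      rcases List.mem_cons.mp hv with rfl | hv
      · exact hlate i hi
      · exact h4 v hv i (by omega)

/-! ## The Peierls argument -/

/-- the linear form `⟨x, u⟩` -/
noncomputable def lin (θ : ℝ) (x : Site) : ℝ := (x.1 : ℝ) * Real.cos θ + (x.2 : ℝ) * Real.sin θ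

theorem lin_add (θ : ℝ) (x y : Site) : lin θ (x + y) = lin θ x + lin θ y := by
  simp only [lin, Prod.fst_add, Prod.snd_add]; push_cast; ring

/-- a site which is never infected starts an injective sequence of such sites with bounded steps -/
theorem exists_seq {R : ℕ} (hR : ∀ X ∈ U.rules, ∀ y ∈ X, |y.1| ≤ R ∧ |y.2| ≤ R)
    {X : Finset Site} (hX : X ∈ U.rules) {θ : ℝ} (hθ : ∀ y ∈ X, y ∈ halfPlane θ)
    {A : Set Site} {x0 : Site} (hx : x0 ∉ U.closure A) :
    ∃ x : ℕ → Site, x 0 = x0 ∧ (∀ i, x i ∉ U.closure A) ∧ Function.Injective x ∧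
      ∀ i, |(x (i + 1)).1 - (x i).1| ≤ R ∧ |(x (i + 1)).2 - (x i).2| ≤ R := by
  have h : ∀ s : {s : Site // s ∉ U.closure A}, ∃ y ∈ X, (s : Site) + y ∉ U.closure A := by
    intro s
    by_contra hcon
    push Not at hcon
    exact s.2 (U.mem_closure_of_rule hX hcon)
  choose f hf1 hf2 using h
  let g : {s : Site // s ∉ U.closure A} → {s : Site // s ∉ U.closure A} := fun s => ⟨s + f s, hf2 s⟩
  let x : ℕ → {s : Site // s ∉ U.closure A} := fun i => g^[i] ⟨x0, hx⟩
  have hsucc : ∀ i, x (i + 1) = g (x i) := fun i => Function.iterate_succ_apply' g i _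
  have hdec : ∀ i, lin θ (x (i + 1) : Site) < lin θ (x i : Site) := by
    intro i
    rw [hsucc]
    show lin θ ((x i : Site) + f (x i)) < _
    rw [lin_add]
    have : lin θ (f (x i)) < 0 := hθ _ (hf1 (x i))
    linarith
  have hanti : StrictAnti fun i => lin θ (x i : Site) := strictAnti_nat_of_succ_lt hdec
  refine ⟨fun i => (x i : Site), rfl, fun i => (x i).2, ?_, ?_⟩
  · intro i j hij
    exact hanti.injective (congrArg (lin θ) hij)
  · intro i
    have e : (x (i + 1) : Site) = (x i : Site) + f (x i) := by rw [hsucc]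
    simp only [e, Prod.fst_add, Prod.snd_add, add_sub_cancel_left]
    exact hR X hX _ (hf1 (x i))

/-- the event that the chain event occurs at level `n` -/
def chainEvent (K L : ℕ) (v : Site) (n : ℕ) : Set (Site → Bool) :=
  ⋃ l ∈ {l ∈ (chains K v n : Set (List Site)) | l.Pairwise (Far K)}, U.allBad L l

theorem never_subset {R : ℕ} (hR1 : 1 ≤ R) (hR : ∀ X ∈ U.rules, ∀ y ∈ X, |y.1| ≤ R ∧ |y.2| ≤ R)
    {X : Finset Site} (hX : X ∈ U.rules) {θ : ℝ} (hθ : ∀ y ∈ X, y ∈ halfPlane θ)
    {L : ℕ} (hL : R ≤ L) (n : ℕ) :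
    {ω | (0 : Site) ∉ U.closure (initial ω)} ⊆ U.chainEvent (4 * R + 2) L (blk L 0) n := by
  intro ω hω
  obtain ⟨x, hx0, hx1, hinj, hxs⟩ := U.exists_seq hR hX hθ hω
  have hL1 : 1 ≤ L := hR1.trans hL
  have hRL : (R : ℤ) ≤ L := by exact_mod_cast hL
  obtain ⟨j, l, h1, h2, h3, -⟩ := exists_chain (fun i => blk L (x i)) (K := 4 * R + 2) (by omega)
    (fun i => ⟨ediv_step hL1 ((hxs i).1.trans hRL), ediv_step hL1 ((hxs i).2.trans hRL)⟩)
    (by
      intro v
      have hf : (x ⁻¹' (((box v (4 * R + 2 - 1)).biUnion (block L) : Finset Site) :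
          Set Site)).Finite := Set.Finite.preimage hinj.injOn (Finset.finite_toSet _)
      refine hf.subset ?_
      intro i hi
      simp only [mem_setOf_eq] at hi
      rw [mem_preimage, Finset.mem_coe, Finset.mem_biUnion]
      exact ⟨blk L (x i), hi, mem_block_blk hL1 (x i)⟩) n
  rw [hx0] at h1
  refine mem_biUnion (x := blk L (x j) :: l) ⟨h1, h3⟩ ?_
  intro v hv
  have hbad : ∀ i, ω ∈ U.bad L (blk L (x i)) := fun i =>
    ⟨x i, mem_block_blk hL1 (x i), fun hc => hx1 i (U.infected_subset_closure _ _ hc)⟩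
  rcases List.mem_cons.mp hv with rfl | hv
  · exact hbad j
  · obtain ⟨i, rfl⟩ := h2 v hv
    exact hbad i

theorem law_chainEvent_le {p : ℝ} (h0 : 0 ≤ p) (h1 : p ≤ 1) {R : ℕ}
    (hR : ∀ X ∈ U.rules, ∀ y ∈ X, |y.1| ≤ R ∧ |y.2| ≤ R) {L : ℕ} (hL : 1 ≤ L) (v : Site) (n : ℕ) :
    law p (U.chainEvent (4 * R + 2) L v n)
      ≤ (((2 * (4 * R + 2) + 1) ^ 2 : ℕ) : ℝ≥0∞) ^ n * law p (U.bad L 0) ^ (n + 1) := by
  classical
  set K := 4 * R + 2 with hK
  have e : U.chainEvent K L v n
      = ⋃ l ∈ (chains K v n).filter (fun l => l.Pairwise (Far K)), U.allBad L l := by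
    unfold chainEvent
    congr 1
    ext l
    simp
  rw [e]
  refine (measure_biUnion_finset_le _ _).trans ?_
  calc ∑ l ∈ (chains K v n).filter (fun l => l.Pairwise (Far K)), law p (U.allBad L l)
      ≤ ∑ _l ∈ (chains K v n).filter (fun l => l.Pairwise (Far K)), law p (U.bad L 0) ^ (n + 1) := by
        refine Finset.sum_le_sum fun l hl => ?_
        obtain ⟨hl1, hl2⟩ := Finset.mem_filter.mp hl
        rw [U.law_allBad h0 h1 hR hL l hl2, length_chains K v n l hl1]
    _ = (((chains K v n).filter (fun l => l.Pairwise (Far K))).card : ℝ≥0∞)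
          * law p (U.bad L 0) ^ (n + 1) := by rw [Finset.sum_const, nsmul_eq_mul]
    _ ≤ (((2 * K + 1) ^ 2 : ℕ) : ℝ≥0∞) ^ n * law p (U.bad L 0) ^ (n + 1) := by
        gcongr
        have := (Finset.card_filter_le (chains K v n) (fun l => l.Pairwise (Far K))).trans
          (card_chains K v n)
        exact_mod_cast this

/-- the finite-size criterion -/
theorem never_of_small {p : ℝ} (h0 : 0 ≤ p) (h1 : p ≤ 1) {R : ℕ} (hR1 : 1 ≤ R)
    (hR : ∀ X ∈ U.rules, ∀ y ∈ X, |y.1| ≤ R ∧ |y.2| ≤ R)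
    {X : Finset Site} (hX : X ∈ U.rules) {θ : ℝ} (hθ : ∀ y ∈ X, y ∈ halfPlane θ)
    {L : ℕ} (hL : R ≤ L)
    (hsmall : (((2 * (4 * R + 2) + 1) ^ 2 : ℕ) : ℝ≥0∞) * law p (U.bad L 0) ≤ 2⁻¹) :
    law p {ω | (0 : Site) ∉ U.closure (initial ω)} = 0 := by
  have := law_prob h0 h1
  have hle : ∀ n : ℕ, law p {ω | (0 : Site) ∉ U.closure (initial ω)} ≤ (2⁻¹ : ℝ≥0∞) ^ n := by
    intro n
    refine (measure_mono (U.never_subset hR1 hR hX hθ hL n)).trans ?_
    refine (U.law_chainEvent_le h0 h1 hR (hR1.trans hL) (blk L 0) n).trans ?_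
    calc (((2 * (4 * R + 2) + 1) ^ 2 : ℕ) : ℝ≥0∞) ^ n * law p (U.bad L 0) ^ (n + 1)
        = ((((2 * (4 * R + 2) + 1) ^ 2 : ℕ) : ℝ≥0∞) * law p (U.bad L 0)) ^ n
            * law p (U.bad L 0) := by
            rw [mul_pow, pow_succ (law p (U.bad L 0)), mul_assoc]
      _ ≤ (2⁻¹ : ℝ≥0∞) ^ n * 1 := by
          gcongr
          exact prob_le_one
      _ = (2⁻¹ : ℝ≥0∞) ^ n := mul_one _
  have hlim : Tendsto (fun n : ℕ => (2⁻¹ : ℝ≥0∞) ^ n) atTop (𝓝 0) :=
    ENNReal.tendsto_pow_atTop_nhds_zero_of_lt_one (by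
      rw [ENNReal.inv_lt_one]; exact ENNReal.one_lt_two)
  exact nonpos_iff_eq_zero.mp (ge_of_tendsto' hlim hle)

theorem measurableSet_infected (x : Site) (t : ℕ) :
    MeasurableSet {ω : Site → Bool | x ∈ U.infected (initial ω) t} := by
  obtain ⟨R, -, hR⟩ := U.exists_range
  exact (U.infected_depOn hR x t).measurableSet

theorem measurableSet_closure (x : Site) :
    MeasurableSet {ω : Site → Bool | x ∈ U.closure (initial ω)} := by
  have e : {ω : Site → Bool | x ∈ U.closure (initial ω)}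
      = ⋃ t, {ω | x ∈ U.infected (initial ω) t} := by
    ext ω; simp [closure]
  rw [e]
  exact MeasurableSet.iUnion fun t => U.measurableSet_infected x t

theorem percolation_eq : U.percolation = ⋂ x : Site, {ω | x ∈ U.closure (initial ω)} := by
  ext ω
  simp only [percolation, mem_setOf_eq, mem_iInter, eq_univ_iff_forall]

theorem measurableSet_percolation : MeasurableSet U.percolation := by
  rw [percolation_eq]
  exact MeasurableSet.iInter fun x => U.measurableSet_closure x

theorem closure_shift (ω : Site → Bool) (v x : Site) :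
    x ∈ U.closure (initial fun z => ω (z + v)) ↔ x + v ∈ U.closure (initial ω) := by
  rw [initial_shift]
  simp only [closure, mem_iUnion, U.infected_shift]

theorem law_never {p : ℝ} (h0 : 0 ≤ p) (h1 : p ≤ 1) (x : Site) :
    law p {ω | x ∉ U.closure (initial ω)} = law p {ω | (0 : Site) ∉ U.closure (initial ω)} := by
  have e : {ω : Site → Bool | (0 : Site) ∉ U.closure (initial ω)}
      = {ω | (0 : Site) ∈ U.closure (initial ω)}ᶜ := rfl
  rw [e, ← law_shift h0 h1 x (U.measurableSet_closure 0).compl]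
  congr 1
  ext ω
  simp only [mem_setOf_eq, mem_compl_iff, U.closure_shift, zero_add]

theorem law_percolation_of_never {p : ℝ} (h0 : 0 ≤ p) (h1 : p ≤ 1)
    (h : law p {ω | (0 : Site) ∉ U.closure (initial ω)} = 0) : law p U.percolation = 1 := by
  have := law_prob h0 h1
  rw [← prob_compl_eq_zero_iff U.measurableSet_percolation]
  have e : U.percolationᶜ = ⋃ x : Site, {ω | x ∉ U.closure (initial ω)} := by
    rw [percolation_eq, compl_iInter]
    rfl
  rw [e, measure_iUnion_null_iff]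
  intro x
  rw [U.law_never h0 h1 x, h]

theorem pc_le {p : ℝ} (h0 : 0 ≤ p) (h1 : p ≤ 1) (h : law p U.percolation = 1) : U.pc ≤ p :=
  csInf_le ⟨0, fun _ hq => hq.1⟩ ⟨h0, h1, h⟩

theorem pc_nonneg : 0 ≤ U.pc := Real.sInf_nonneg fun _ hq => hq.1

theorem law_one_true (x : Site) : law 1 {ω | ω x ≠ true} = 0 := by
  have := bern_prob (p := 1) (by norm_num) le_rfl
  have h := Measure.infinitePi_map_eval (fun _ : Site => bern 1) x
  have h2 : (law 1).map (fun ω => ω x) {false} = bern 1 {false} := by unfold law; rw [h]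
  rw [Measure.map_apply (measurable_pi_apply x) (measurableSet_singleton _), bern_false] at h2
  have e : {ω : Site → Bool | ω x ≠ true} = (fun ω => ω x) ⁻¹' {false} := by
    ext ω; simp
  rw [e, h2]; simp

theorem law_zero_false (x : Site) : law 0 {ω | ω x ≠ false} = 0 := by
  have := bern_prob (p := 0) le_rfl (by norm_num)
  have h := Measure.infinitePi_map_eval (fun _ : Site => bern 0) x
  have h2 : (law 0).map (fun ω => ω x) {true} = bern 0 {true} := by unfold law; rw [h]
  rw [Measure.map_apply (measurable_pi_apply x) (measurableSet_singleton _), bern_true] at h2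
  have e : {ω : Site → Bool | ω x ≠ false} = (fun ω => ω x) ⁻¹' {true} := by
    ext ω; simp
  rw [e, h2]; simp

theorem law_one_percolation : law 1 U.percolation = 1 := by
  refine U.law_percolation_of_never (by norm_num) le_rfl ?_
  refine measure_mono_null ?_ (law_one_true 0)
  intro ω hω h
  exact hω (U.infected_subset_closure _ 0 h)

theorem pc_le_one : U.pc ≤ 1 := U.pc_le (by norm_num) le_rfl U.law_one_percolation

/-- if the finite-size criterion holds at a positive density then it holds slightly below -/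
theorem pc_lt_of_small {p : ℝ} (h0 : 0 < p) (h1 : p ≤ 1) {R : ℕ} (hR1 : 1 ≤ R)
    (hR : ∀ X ∈ U.rules, ∀ y ∈ X, |y.1| ≤ R ∧ |y.2| ≤ R)
    {X : Finset Site} (hX : X ∈ U.rules) {θ : ℝ} (hθ : ∀ y ∈ X, y ∈ halfPlane θ)
    {L : ℕ} (hL : R ≤ L)
    (hsmall : (((2 * (4 * R + 2) + 1) ^ 2 : ℕ) : ℝ≥0∞) * law p (U.bad L 0) < 2⁻¹) :
    U.pc < p := by
  obtain ⟨g, hg, hgp⟩ := law_continuous (U.bad_depOn hR L 0)
  set D : ℝ≥0∞ := (((2 * (4 * R + 2) + 1) ^ 2 : ℕ) : ℝ≥0∞) with hD
  have hDtop : D ≠ ⊤ := ENNReal.natCast_ne_top _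
  have hcont : Continuous fun q => D * ENNReal.ofReal (g q) :=
    (ENNReal.continuous_const_mul hDtop).comp (ENNReal.continuous_ofReal.comp hg)
  rw [hgp p h0.le h1] at hsmall
  have hopen : ∀ᶠ q in 𝓝 p, D * ENNReal.ofReal (g q) < 2⁻¹ :=
    hcont.continuousAt.eventually (gt_mem_nhds hsmall)
  have hnear : ∀ᶠ q in 𝓝[<] p, D * ENNReal.ofReal (g q) < 2⁻¹ := nhdsWithin_le_nhds hopen
  have hpos : ∀ᶠ q in 𝓝[<] p, 0 < q := nhdsWithin_le_nhds (lt_mem_nhds h0)
  have hlt : ∀ᶠ q in 𝓝[<] p, q < p := self_mem_nhdsWithin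
  obtain ⟨q, hq1, hq2, hq3⟩ := (hnear.and (hpos.and hlt)).exists
  have hq4 : q ≤ 1 := hq3.le.trans h1
  rw [← hgp q hq2.le hq4] at hq1
  have := U.law_percolation_of_never hq2.le hq4
    (U.never_of_small hq2.le hq4 hR1 hR hX hθ hL hq1.le)
  exact (U.pc_le hq2.le hq4 this).trans_lt hq3

theorem pc_lt_one {X : Finset Site} (hX : X ∈ U.rules) {θ : ℝ} (hθ : ∀ y ∈ X, y ∈ halfPlane θ) :
    U.pc < 1 := by
  obtain ⟨R, hR1, hR⟩ := U.exists_range
  refine U.pc_lt_of_small one_pos le_rfl hR1 hR hX hθ le_rfl ?_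
  have : law 1 (U.bad R 0) = 0 := by
    have hsub : U.bad R 0 ⊆ ⋃ x : Site, {ω | ω x ≠ true} := by
      rintro ω ⟨x, -, hx⟩
      refine mem_iUnion.mpr ⟨x, fun h => hx ?_⟩
      exact U.infected_mono_time _ (Nat.zero_le _) h
    exact measure_mono_null hsub (measure_iUnion_null fun x => law_one_true x)
  rw [this, mul_zero]
  simp

theorem pc_pos (hne : ∅ ∉ U.rules) (h : law U.pc U.percolation = 1) : 0 < U.pc := by
  rcases U.pc_nonneg.lt_or_eq with h1 | h1
  · exact h1
  exfalso
  rw [← h1] at h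
  have hcl : U.closure ∅ = ∅ := by
    have : ∀ t, U.infected ∅ t = ∅ := by
      intro t
      induction t with
      | zero => rfl
      | succ t ih =>
        rw [infected, ih, empty_union]
        ext x
        simp only [mem_setOf_eq, mem_empty_iff_false, iff_false]
        rintro ⟨X, hX, hx⟩
        rcases X.eq_empty_or_nonempty with rfl | ⟨y, hy⟩
        · exact hne hX
        · exact hx y hy
    simp [closure, this]
  have hz : law 0 U.percolation = 0 := by
    have hsub : U.percolation ⊆ ⋃ x : Site, {ω | ω x ≠ false} := by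
      intro ω hω
      by_contra hcon
      simp only [mem_iUnion, mem_setOf_eq, not_exists, not_not] at hcon
      have : initial ω = ∅ := by
        ext x; simp [initial, hcon x]
      rw [percolation, mem_setOf_eq, this, hcl] at hω
      exact absurd hω.symm univ_nonempty.ne_empty
    exact measure_mono_null hsub (measure_iUnion_null fun x => law_zero_false x)
  rw [hz] at h
  exact zero_ne_one h

/-! ## Infinite mean at criticality -/

/-- the probability that a block is bad is small along a sequence, if the mean is finite -/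
theorem law_bad_le {p : ℝ} (h0 : 0 ≤ p) (h1 : p ≤ 1) (hne : ∅ ∉ U.rules)
    (hperc : law p U.percolation = 1) {R : ℕ}
    (hR : ∀ X ∈ U.rules, ∀ y ∈ X, |y.1| ≤ R ∧ |y.2| ≤ R) {L : ℕ} (hL : 1 ≤ L) :
    ((L : ℝ≥0∞) + 1) * law p (U.bad L 0)
      ≤ ((2 * ((R + 1) * L) + 1) ^ 2 : ℕ) * law p {ω | (0 : Site) ∉ U.infected (initial ω) L} := by
  classical
  have := law_prob h0 h1
  let B : Finset Site := box 0 ((R + 1) * L)
  let F : (Site → Bool) → ℝ≥0∞ := fun ω =>
    ∑ z ∈ B, indicator {ω | z ∉ U.infected (initial ω) L} (fun _ => (1 : ℝ≥0∞)) ω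
  have hFm : Measurable F := by
    refine Finset.measurable_sum _ fun z _ => measurable_const.indicator ?_
    exact (U.measurableSet_infected z L).compl
  have hF : ∫⁻ ω, F ω ∂(law p)
      = ((2 * ((R + 1) * L) + 1) ^ 2 : ℕ) * law p {ω | (0 : Site) ∉ U.infected (initial ω) L} := by
    show ∫⁻ ω, ∑ z ∈ B, indicator {ω | z ∉ U.infected (initial ω) L} (fun _ => (1 : ℝ≥0∞)) ω
      ∂(law p) = _
    rw [lintegral_finsetSum]
    · have : ∀ z ∈ B, ∫⁻ ω, indicator {ω | z ∉ U.infected (initial ω) L} (fun _ => (1 : ℝ≥0∞)) ω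
          ∂(law p) = law p {ω | (0 : Site) ∉ U.infected (initial ω) L} := by
        intro z _
        have hm : MeasurableSet {ω : Site → Bool | z ∉ U.infected (initial ω) L} :=
          (U.measurableSet_infected z L).compl
        rw [lintegral_indicator hm, lintegral_const, one_mul, Measure.restrict_apply_univ,
          U.law_late h0 h1]
      rw [Finset.sum_congr rfl this, Finset.sum_const, nsmul_eq_mul]
      congr 2
      exact_mod_cast card_box 0 ((R + 1) * L)
    · intro z _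
      exact measurable_const.indicator (U.measurableSet_infected z L).compl
  have hsub : U.bad L 0 ∩ U.percolation ⊆ {ω | ((L : ℝ≥0∞) + 1) ≤ F ω} := by
    rintro ω ⟨⟨x, hx, hxL⟩, hω⟩
    have hxc : x ∈ U.closure (initial ω) := by
      have : U.closure (initial ω) = univ := hω
      rw [this]; trivial
    obtain ⟨S, hS1, hS2, hS3⟩ := U.many_late hne hR (initial ω) x L hxc hxL
    have hSB : S ⊆ B := by
      intro z hz
      have hz' := hS1 hz
      rw [mem_box] at hz'
      rw [mem_block] at hx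
      simp only [Prod.fst_zero, Prod.snd_zero, mul_zero, zero_add] at hx
      obtain ⟨⟨hx1, hx2⟩, hx3, hx4⟩ := hx
      obtain ⟨hz1, hz2⟩ := hz'
      rw [abs_le] at hz1 hz2
      push_cast at hz1 hz2
      refine mem_box.mpr ⟨abs_le.mpr ?_, abs_le.mpr ?_⟩ <;> push_cast <;>
        simp only [Prod.fst_zero, Prod.snd_zero, sub_zero] <;> constructor <;> nlinarith
    have hsum : (S.card : ℝ≥0∞) ≤ F ω := by
      calc (S.card : ℝ≥0∞) = ∑ z ∈ S, (1 : ℝ≥0∞) := by simp
        _ = ∑ z ∈ S, indicator {ω | z ∉ U.infected (initial ω) L} (fun _ => (1 : ℝ≥0∞)) ω := by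
            refine Finset.sum_congr rfl fun z hz => ?_
            rw [indicator_of_mem]
            exact hS3 z hz
        _ ≤ F ω := Finset.sum_le_sum_of_subset hSB
    refine le_trans ?_ hsum
    exact_mod_cast hS2
  have hbad : law p (U.bad L 0) = law p (U.bad L 0 ∩ U.percolation) := by
    refine (measure_inter_conull ?_).symm
    exact (prob_compl_eq_zero_iff U.measurableSet_percolation).mpr hperc
  rw [hbad, ← hF]
  calc ((L : ℝ≥0∞) + 1) * law p (U.bad L 0 ∩ U.percolation)
      ≤ ((L : ℝ≥0∞) + 1) * law p {ω | ((L : ℝ≥0∞) + 1) ≤ F ω} := by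
        gcongr
    _ ≤ ∫⁻ ω, F ω ∂(law p) := mul_meas_ge_le_lintegral hFm _

theorem measurable_time : Measurable U.time := by
  unfold time
  refine Measurable.iInf fun t => ?_
  have e : (fun ω : Site → Bool => ⨅ (_ : (0 : Site) ∈ U.infected (initial ω) t), (t : ℝ≥0∞))
      = fun ω => ({ω : Site → Bool | (0 : Site) ∈ U.infected (initial ω) t}).indicator
          (fun _ => (t : ℝ≥0∞)) ω
        + ({ω : Site → Bool | (0 : Site) ∈ U.infected (initial ω) t}ᶜ).indicator
          (fun _ => (⊤ : ℝ≥0∞)) ω := by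
    funext ω
    by_cases h : (0 : Site) ∈ U.infected (initial ω) t
    · rw [iInf_pos h]
      simp [h]
    · rw [iInf_neg h]
      simp [h]
  rw [e]
  exact (measurable_const.indicator (U.measurableSet_infected 0 t)).add
    (measurable_const.indicator (U.measurableSet_infected 0 t).compl)

theorem le_time {ω : Site → Bool} {M : ℕ} (h : (0 : Site) ∉ U.infected (initial ω) M) :
    (M : ℝ≥0∞) ≤ U.time ω := by
  refine le_iInf fun t => le_iInf fun ht => ?_
  have : M ≤ t := by
    by_contra hcon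
    exact h (U.infected_mono_time _ (by omega) ht)
  exact_mod_cast this

/-- a finite mean forces `M * P(T > M) → 0` -/
theorem tendsto_mul_late {p : ℝ} (h0 : 0 ≤ p) (h1 : p ≤ 1)
    (hE : ∫⁻ ω, U.time ω ∂(law p) ≠ ⊤) :
    Tendsto (fun M : ℕ => (M : ℝ≥0∞) * law p {ω | (0 : Site) ∉ U.infected (initial ω) M})
      atTop (𝓝 0) := by
  have := law_prob h0 h1
  let s : ℕ → Set (Site → Bool) := fun M => {ω | (0 : Site) ∉ U.infected (initial ω) M}
  have hs : ∀ M, MeasurableSet (s M) := fun M => (U.measurableSet_infected 0 M).compl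
  have hle : ∀ M : ℕ, (M : ℝ≥0∞) * law p (s M) ≤ ∫⁻ ω in s M, U.time ω ∂(law p) := by
    intro M
    calc (M : ℝ≥0∞) * law p (s M) = ∫⁻ _ω in s M, (M : ℝ≥0∞) ∂(law p) := by
          rw [setLIntegral_const]
      _ ≤ ∫⁻ ω in s M, U.time ω ∂(law p) := by
          refine setLIntegral_mono U.measurable_time fun ω hω => U.le_time hω
  have hz : Tendsto (fun M : ℕ => law p (s M)) atTop (𝓝 0) := by
    have hle2 : ∀ᶠ M : ℕ in atTop, law p (s M) ≤ (∫⁻ ω, U.time ω ∂(law p)) / M := by
      filter_upwards [eventually_ge_atTop 1] with M hM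
      rw [ENNReal.le_div_iff_mul_le (Or.inl (by exact_mod_cast (by omega : M ≠ 0)))
        (Or.inl (ENNReal.natCast_ne_top M)), mul_comm]
      exact (hle M).trans (setLIntegral_le_lintegral _ _)
    refine tendsto_of_tendsto_of_tendsto_of_le_of_le' tendsto_const_nhds ?_
      (Eventually.of_forall fun _ => bot_le) hle2
    have := ENNReal.Tendsto.const_div (a := ∫⁻ ω, U.time ω ∂(law p))
      ENNReal.tendsto_nat_nhds_top (Or.inr hE)
    simpa using this
  have hlim := tendsto_setLIntegral_zero hE hz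
  exact tendsto_of_tendsto_of_tendsto_of_le_of_le tendsto_const_nhds hlim (fun _ => bot_le) hle

/-- infinite mean at criticality -/
theorem mean_eq_top (hne : ∅ ∉ U.rules) (hperc : law U.pc U.percolation = 1)
    {X : Finset Site} (hX : X ∈ U.rules) {θ : ℝ} (hθ : ∀ y ∈ X, y ∈ halfPlane θ) :
    ∫⁻ ω, U.time ω ∂(law U.pc) = ⊤ := by
  by_contra hE
  obtain ⟨R, hR1, hR⟩ := U.exists_range
  have h0 : 0 < U.pc := U.pc_pos hne hperc
  have h1 : U.pc ≤ 1 := U.pc_le_one
  have hlim := U.tendsto_mul_late h0.le h1 hE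
  set D : ℝ≥0∞ := (((2 * (4 * R + 2) + 1) ^ 2 : ℕ) : ℝ≥0∞) with hD
  set C : ℝ≥0∞ := (((2 * R + 3) ^ 2 : ℕ) : ℝ≥0∞) with hC
  have hlim2 : Tendsto (fun M : ℕ => D * (C * ((M : ℝ≥0∞) *
      law U.pc {ω | (0 : Site) ∉ U.infected (initial ω) M}))) atTop (𝓝 0) := by
    have h2 := ENNReal.Tendsto.const_mul (a := C) hlim (Or.inr (ENNReal.natCast_ne_top _))
    have h3 := ENNReal.Tendsto.const_mul (a := D) h2 (Or.inr (ENNReal.natCast_ne_top _))
    simpa using h3
  have hev : ∀ᶠ M : ℕ in atTop, D * (C * ((M : ℝ≥0∞) *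
      law U.pc {ω | (0 : Site) ∉ U.infected (initial ω) M})) < 2⁻¹ :=
    hlim2.eventually (gt_mem_nhds (by simp))
  obtain ⟨L, hL1, hL2⟩ := (hev.and (eventually_ge_atTop R)).exists
  have hL : 1 ≤ L := hR1.trans hL2
  refine lt_irrefl U.pc (U.pc_lt_of_small h0 h1 hR1 hR hX hθ hL2 (lt_of_le_of_lt ?_ hL1))
  rw [← hD]
  gcongr
  have hb := U.law_bad_le h0.le h1 hne hperc hR hL
  set P := law U.pc {ω | (0 : Site) ∉ U.infected (initial ω) L} with hP
  have hLpos : (L : ℝ≥0∞) ≠ 0 := by exact_mod_cast (by omega : L ≠ 0)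
  have hLtop : (L : ℝ≥0∞) ≠ ⊤ := ENNReal.natCast_ne_top L
  have h2 : (L : ℝ≥0∞) * law U.pc (U.bad L 0) ≤ (L : ℝ≥0∞) * (C * (L * P)) := by
    calc (L : ℝ≥0∞) * law U.pc (U.bad L 0) ≤ ((L : ℝ≥0∞) + 1) * law U.pc (U.bad L 0) := by
          gcongr
          exact le_self_add
      _ ≤ ((2 * ((R + 1) * L) + 1) ^ 2 : ℕ) * P := hb
      _ ≤ ((((2 * R + 3) * L) ^ 2 : ℕ) : ℝ≥0∞) * P := by
          gcongr
          nlinarith
      _ = (L : ℝ≥0∞) * (C * (L * P)) := by
          rw [hC]; push_cast; ring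
  exact (ENNReal.mul_le_mul_iff_right hLpos hLtop).mp h2

/-! ## Families all of whose directions are stable -/

theorem zero_notMem_halfPlane (θ : ℝ) : (0 : Site) ∉ halfPlane θ := by
  simp [halfPlane]

theorem mem_halfPlane {θ : ℝ} {x : Site} : x ∈ halfPlane θ ↔ lin θ x < 0 := Iff.rfl

/-- a direction is stable iff no rule lies in the half-plane -/
theorem stable_iff (θ : ℝ) : U.Stable θ ↔ ∀ X ∈ U.rules, ∃ y ∈ X, y ∉ halfPlane θ := by
  constructor
  · intro h X hX
    by_contra hcon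
    push Not at hcon
    have : (0 : Site) ∈ U.closure (halfPlane θ) := by
      refine U.mem_closure_of_rule hX fun y hy => ?_
      rw [zero_add]
      exact U.infected_subset_closure _ 0 (hcon y hy)
    rw [h] at this
    exact zero_notMem_halfPlane θ this
  · intro h
    apply Subset.antisymm
    · intro x hx
      by_contra hxn
      refine U.notMem_closure_of_healthy (A := halfPlane θ) (K := (halfPlane θ)ᶜ) ?_
        (fun x hx => hx) x hxn hx
      intro z hz X hX
      obtain ⟨y, hy, hyn⟩ := h X hX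
      refine ⟨y, hy, ?_⟩
      rw [mem_compl_iff, mem_halfPlane, not_lt] at hz ⊢
      rw [mem_halfPlane, not_lt] at hyn
      rw [lin_add]; linarith
    · exact U.infected_subset_closure _ 0

/-- the site as a vector of the real plane -/
def toReal (x : Site) : ℝ × ℝ := ((x.1 : ℝ), (x.2 : ℝ))

theorem toReal_injective : Function.Injective toReal := by
  rintro ⟨a, b⟩ ⟨c, d⟩ h
  simp only [toReal, Prod.mk.injEq, Int.cast_inj] at h
  exact Prod.ext h.1 h.2

theorem zero_mem_hull {X : Finset Site} (h : ∀ θ, ∃ y ∈ X, y ∉ halfPlane θ) :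
    (0 : ℝ × ℝ) ∈ convexHull ℝ (X.image toReal : Set (ℝ × ℝ)) := by
  by_contra hcon
  have hcl : IsClosed (convexHull ℝ (X.image toReal : Set (ℝ × ℝ))) :=
    (Set.Finite.isCompact_convexHull ℝ (Finset.finite_toSet (X.image toReal))).isClosed
  obtain ⟨f, u, hf0, hf1⟩ := geometric_hahn_banach_point_closed
    (convex_convexHull ℝ _) hcl hcon
  rw [map_zero] at hf0
  set a : ℝ := f (1, 0) with ha
  set b : ℝ := f (0, 1) with hb
  have hfab : ∀ x : ℝ × ℝ, f x = x.1 * a + x.2 * b := by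
    intro x
    have e : x = x.1 • ((1, 0) : ℝ × ℝ) + x.2 • ((0, 1) : ℝ × ℝ) := by
      ext <;> simp
    conv_lhs => rw [e]
    rw [map_add, map_smul, map_smul, smul_eq_mul, smul_eq_mul]
  set z : ℂ := ⟨-a, -b⟩ with hz
  obtain ⟨y, hy, hyn⟩ := h z.arg
  have hy1 : u < f (toReal y) := hf1 _ (subset_convexHull ℝ _
    (Finset.mem_coe.mpr (Finset.mem_image_of_mem toReal hy)))
  rw [hfab] at hy1
  rw [mem_halfPlane, not_lt] at hyn
  have h1 : ‖z‖ * Real.cos z.arg = -a := Complex.norm_mul_cos_arg z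
  have h2 : ‖z‖ * Real.sin z.arg = -b := Complex.norm_mul_sin_arg z
  have h3 : 0 ≤ ‖z‖ * lin z.arg y := mul_nonneg (norm_nonneg _) hyn
  have h4 : ‖z‖ * lin z.arg y = -((y.1 : ℝ) * a + y.2 * b) := by
    unfold lin
    calc ‖z‖ * ((y.1 : ℝ) * Real.cos z.arg + y.2 * Real.sin z.arg)
        = (y.1 : ℝ) * (‖z‖ * Real.cos z.arg) + y.2 * (‖z‖ * Real.sin z.arg) := by ring
      _ = -((y.1 : ℝ) * a + y.2 * b) := by rw [h1, h2]; ring
  rw [h4] at h3
  simp only [toReal] at hy1
  linarith

/-- nonnegative weights give nonnegative integer weights -/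
theorem exists_int_weights {X : Finset Site}
    (h : (0 : ℝ × ℝ) ∈ convexHull ℝ (X.image toReal : Set (ℝ × ℝ))) :
    ∃ c : Site → ℕ, (∃ y ∈ X, 0 < c y) ∧ ∑ y ∈ X, c y • y = 0 := by
  classical
  rw [Finset.mem_convexHull'] at h
  obtain ⟨w0, hw0, hw1, hw2⟩ := h
  rw [Finset.sum_image toReal_injective.injOn] at hw1 hw2
  set w : Site → ℝ := fun y => w0 (toReal y) with hw
  have hwn : ∀ y ∈ X, 0 ≤ w y := fun y hy => hw0 _ (Finset.mem_image_of_mem _ hy)
  have hX : X.Nonempty := by
    rw [Finset.nonempty_iff_ne_empty]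
    rintro rfl
    simp at hw1
  -- the integer combinations
  let q : ℕ → Site := fun n => ∑ y ∈ X, ⌊(n : ℝ) * w y⌋₊ • y
  have hz1 : ∑ y ∈ X, w y * (y.1 : ℝ) = 0 := by
    have := congrArg Prod.fst hw2
    simpa [hw, Prod.fst_sum, toReal] using this
  have hz2 : ∑ y ∈ X, w y * (y.2 : ℝ) = 0 := by
    have := congrArg Prod.snd hw2
    simpa [hw, Prod.snd_sum, toReal] using this
  have hbound : ∀ (g : Site → ℤ), ∑ y ∈ X, w y * (g y : ℝ) = 0 → ∀ n : ℕ,
      |∑ y ∈ X, (⌊(n : ℝ) * w y⌋₊ : ℤ) * g y| ≤ ∑ y ∈ X, |g y| := by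
    intro g hg n
    have h1 : |((∑ y ∈ X, (⌊(n : ℝ) * w y⌋₊ : ℤ) * g y : ℤ) : ℝ)| ≤ ∑ y ∈ X, |(g y : ℝ)| := by
      have e : ((∑ y ∈ X, (⌊(n : ℝ) * w y⌋₊ : ℤ) * g y : ℤ) : ℝ)
          = ∑ y ∈ X, ((⌊(n : ℝ) * w y⌋₊ : ℝ) - n * w y) * g y := by
        push_cast
        have : ∑ y ∈ X, (n : ℝ) * w y * g y = 0 := by
          have := congrArg (fun t => (n : ℝ) * t) hg
          simp only [Finset.mul_sum, mul_zero] at this
          rw [← this]
          exact Finset.sum_congr rfl fun y _ => by ring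
        rw [Finset.sum_congr rfl (fun y _ => sub_mul _ _ _), Finset.sum_sub_distrib, this, sub_zero]
      rw [e]
      refine (Finset.abs_sum_le_sum_abs _ _).trans (Finset.sum_le_sum fun y hy => ?_)
      rw [abs_mul]
      have h2 : |((⌊(n : ℝ) * w y⌋₊ : ℝ) - n * w y)| ≤ 1 := by
        have h3 := Nat.floor_le (mul_nonneg (Nat.cast_nonneg n) (hwn y hy))
        have h4 := Nat.lt_floor_add_one ((n : ℝ) * w y)
        rw [abs_le]; constructor <;> linarith
      calc |((⌊(n : ℝ) * w y⌋₊ : ℝ) - n * w y)| * |(g y : ℝ)| ≤ 1 * |(g y : ℝ)| :=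
            mul_le_mul_of_nonneg_right h2 (abs_nonneg _)
        _ = |(g y : ℝ)| := one_mul _
    exact_mod_cast h1
  obtain ⟨N, hN⟩ : ∃ N : ℕ, ∀ n, q n ∈ box 0 N := by
    refine ⟨(∑ y ∈ X, |y.1|).toNat + (∑ y ∈ X, |y.2|).toNat, fun n => ?_⟩
    have b1 := hbound (fun y => y.1) hz1 n
    have b2 := hbound (fun y => y.2) hz2 n
    have c1 := Int.self_le_toNat (∑ y ∈ X, |y.1|)
    have c2 := Int.self_le_toNat (∑ y ∈ X, |y.2|)
    rw [mem_box]
    have e1 : (q n).1 = ∑ y ∈ X, (⌊(n : ℝ) * w y⌋₊ : ℤ) * y.1 := by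
      simp [q, Prod.fst_sum]
    have e2 : (q n).2 = ∑ y ∈ X, (⌊(n : ℝ) * w y⌋₊ : ℤ) * y.2 := by
      simp [q, Prod.snd_sum]
    rw [e1, e2]
    push_cast
    simp only [Prod.fst_zero, Prod.snd_zero, sub_zero]
    constructor
    · refine b1.trans ?_; omega
    · refine b2.trans ?_; omega
  let q' : ℕ → box 0 N := fun n => ⟨q n, hN n⟩
  obtain ⟨v, hv⟩ := Finite.exists_infinite_fiber q'
  have hvi : (q' ⁻¹' {v}).Infinite := Set.infinite_coe_iff.mp hv
  obtain ⟨n, hn⟩ := hvi.nonempty
  obtain ⟨m, hm, hnm⟩ := hvi.exists_gt (n + X.card)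
  have hq : q n = q m := by
    have h1 : q' n = v := hn
    have h2 : q' m = v := hm
    exact congrArg Subtype.val (h1.trans h2.symm)
  -- a heavy element
  obtain ⟨y0, hy0, hwy0⟩ : ∃ y ∈ X, 1 / (X.card : ℝ) ≤ w y := by
    by_contra hcon
    push Not at hcon
    have h1 : ∑ y ∈ X, w y < ∑ _y ∈ X, 1 / (X.card : ℝ) := Finset.sum_lt_sum_of_nonempty hX hcon
    rw [Finset.sum_const, nsmul_eq_mul, mul_one_div_cancel
      (by exact_mod_cast (Finset.card_pos.mpr hX).ne')] at h1
    have : ∑ y ∈ X, w y = 1 := hw1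
    linarith
  have hmono : ∀ y ∈ X, ⌊(n : ℝ) * w y⌋₊ ≤ ⌊(m : ℝ) * w y⌋₊ := by
    intro y hy
    refine Nat.floor_le_floor (mul_le_mul_of_nonneg_right ?_ (hwn y hy))
    exact_mod_cast (by omega : n ≤ m)
  refine ⟨fun y => ⌊(m : ℝ) * w y⌋₊ - ⌊(n : ℝ) * w y⌋₊, ⟨y0, hy0, ?_⟩, ?_⟩
  · have hcard : (0 : ℝ) < X.card := by exact_mod_cast Finset.card_pos.mpr hX
    have h1 : (n : ℝ) * w y0 + 1 ≤ m * w y0 := by
      have h2 : (n : ℝ) + X.card ≤ m := by exact_mod_cast hnm.le
      have h3 : ((n : ℝ) + X.card) * w y0 ≤ m * w y0 :=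
        mul_le_mul_of_nonneg_right h2 (hwn y0 hy0)
      have h4 : 1 ≤ (X.card : ℝ) * w y0 := by
        have := mul_le_mul_of_nonneg_left hwy0 hcard.le
        rwa [mul_one_div_cancel hcard.ne'] at this
      linarith
    have h2 : ⌊(n : ℝ) * w y0⌋₊ + 1 ≤ ⌊(m : ℝ) * w y0⌋₊ := by
      rw [← Nat.floor_add_one (mul_nonneg (Nat.cast_nonneg n) (hwn y0 hy0))]
      exact Nat.floor_le_floor h1
    show 0 < ⌊(m : ℝ) * w y0⌋₊ - ⌊(n : ℝ) * w y0⌋₊
    omega
  · have h1 : ∑ y ∈ X, (⌊(m : ℝ) * w y⌋₊ - ⌊(n : ℝ) * w y⌋₊) • y + q n = q m := by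
      show _ + ∑ y ∈ X, ⌊(n : ℝ) * w y⌋₊ • y = ∑ y ∈ X, ⌊(m : ℝ) * w y⌋₊ • y
      rw [← Finset.sum_add_distrib]
      refine Finset.sum_congr rfl fun y hy => ?_
      rw [← add_smul, Nat.sub_add_cancel (hmono y hy)]
    rw [hq] at h1
    exact add_eq_right.mp h1

/-- a finite set closed for one rule -/
theorem exists_closed_one {X : Finset Site} (h : ∀ θ, ∃ y ∈ X, y ∉ halfPlane θ) :
    ∃ W : Finset Site, W.Nonempty ∧ ∀ x ∈ W, ∃ y ∈ X, x + y ∈ W := by
  classical
  obtain ⟨c, ⟨y1, hy1, hc1⟩, hc2⟩ := exists_int_weights (zero_mem_hull h)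
  refine ⟨(Fintype.piFinset (fun y : X => Finset.range (c y + 1))).image
    (fun a => ∑ y : X, a y • (y : Site)), ?_, ?_⟩
  · refine Finset.Nonempty.image ?_ _
    exact ⟨fun _ => 0, Fintype.mem_piFinset.mpr fun y => by simp⟩
  · intro x hx
    obtain ⟨a, ha, rfl⟩ := Finset.mem_image.mp hx
    rw [Fintype.mem_piFinset] at ha
    have hsum : ∀ (a : X → ℕ) (y : X), ∑ z : X, (Function.update a y (a y + 1)) z • (z : Site)
        = ∑ z : X, a z • (z : Site) + y := by
      intro a y
      rw [← Finset.add_sum_erase _ _ (Finset.mem_univ y),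
        ← Finset.add_sum_erase (Finset.univ) (fun z : X => a z • (z : Site)) (Finset.mem_univ y)]
      have e : ∑ z ∈ Finset.univ.erase y, (Function.update a y (a y + 1)) z • (z : Site)
          = ∑ z ∈ Finset.univ.erase y, a z • (z : Site) := by
        refine Finset.sum_congr rfl fun z hz => ?_
        rw [Function.update_of_ne (Finset.ne_of_mem_erase hz)]
      rw [e, Function.update_self, add_smul, one_smul]
      abel
    by_cases hall : ∀ y : X, a y = c y
    · have hx0 : ∑ y : X, a y • (y : Site) = 0 := by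
        rw [Finset.sum_congr rfl (fun y _ => by rw [hall y])]
        rw [← hc2]
        exact Finset.sum_coe_sort X (fun y => c y • y)
      refine ⟨y1, hy1, ?_⟩
      rw [hx0, zero_add]
      refine Finset.mem_image.mpr ⟨Function.update (fun _ => 0) ⟨y1, hy1⟩ (0 + 1), ?_, ?_⟩
      · rw [Fintype.mem_piFinset]
        intro z
        rw [Finset.mem_range]
        by_cases hz : z = ⟨y1, hy1⟩
        · subst hz
          rw [Function.update_self]
          show 0 + 1 < c y1 + 1
          omega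
        · rw [Function.update_of_ne hz]; omega
      · have := hsum (fun _ => 0) ⟨y1, hy1⟩
        simpa using this
    · push Not at hall
      obtain ⟨y, hy⟩ := hall
      refine ⟨y, y.2, ?_⟩
      rw [← hsum a y]
      refine Finset.mem_image.mpr ⟨_, ?_, rfl⟩
      rw [Fintype.mem_piFinset]
      intro z
      rw [Finset.mem_range]
      by_cases hz : z = y
      · subst hz
        rw [Function.update_self]
        have := Finset.mem_range.mp (ha z)
        omega
      · rw [Function.update_of_ne hz]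
        exact Finset.mem_range.mp (ha z)

/-- a finite set closed for all rules -/
theorem exists_closed_all (h : ∀ θ, U.Stable θ) :
    ∃ K : Finset Site, K.Nonempty ∧ ∀ x ∈ K, ∀ X ∈ U.rules, ∃ y ∈ X, x + y ∈ K := by
  classical
  have hX : ∀ X ∈ U.rules, ∃ W : Finset Site, W.Nonempty ∧ ∀ x ∈ W, ∃ y ∈ X, x + y ∈ W :=
    fun X hX => exists_closed_one fun θ => (U.stable_iff θ).mp (h θ) X hX
  have key : ∀ S : Finset (Finset Site), S ⊆ U.rules →
      ∃ K : Finset Site, K.Nonempty ∧ ∀ x ∈ K, ∀ X ∈ S, ∃ y ∈ X, x + y ∈ K := by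
    intro S
    induction S using Finset.induction_on with
    | empty => intro _; exact ⟨{0}, by simp, by simp⟩
    | insert X S hXS ih =>
      intro hS
      obtain ⟨K, hK1, hK2⟩ := ih ((Finset.subset_insert X S).trans hS)
      obtain ⟨W, hW1, hW2⟩ := hX X (hS (Finset.mem_insert_self X S))
      refine ⟨(K ×ˢ W).image fun p => p.1 + p.2, (hK1.product hW1).image _, ?_⟩
      intro x hx Y hY
      obtain ⟨⟨k, w⟩, hkw, rfl⟩ := Finset.mem_image.mp hx
      obtain ⟨hk, hw⟩ := Finset.mem_product.mp hkw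
      rcases Finset.mem_insert.mp hY with rfl | hY
      · obtain ⟨y, hy, hwy⟩ := hW2 w hw
        refine ⟨y, hy, Finset.mem_image.mpr ⟨(k, w + y), Finset.mem_product.mpr ⟨hk, hwy⟩, ?_⟩⟩
        simp only [add_assoc]
      · obtain ⟨y, hy, hky⟩ := hK2 k hk Y hY
        refine ⟨y, hy, Finset.mem_image.mpr ⟨(k + y, w), Finset.mem_product.mpr ⟨hky, hw⟩, ?_⟩⟩
        simp only
        abel
  exact key U.rules (Finset.Subset.refl _)

theorem law_percolation_ne_one (h : ∀ θ, U.Stable θ) {p : ℝ} (h0 : 0 ≤ p) (h1 : p < 1) :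
    law p U.percolation ≠ 1 := by
  have := law_prob h0 h1.le
  have := bern_prob h0 h1.le
  obtain ⟨K, hK1, hK2⟩ := U.exists_closed_all h
  intro hperc
  have hz := (prob_compl_eq_zero_iff U.measurableSet_percolation).mpr hperc
  have hsub : Set.pi (K : Set Site) (fun _ => ({false} : Set Bool)) ⊆ U.percolationᶜ := by
    intro ω hω hp
    obtain ⟨x, hx⟩ := hK1
    have hcl : U.closure (initial ω) = univ := hp
    refine U.notMem_closure_of_healthy (A := initial ω) (K := (K : Set Site))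
      (fun x hx X hX => by simpa using hK2 x (by simpa using hx) X hX) ?_ x (by simpa using hx)
      (by rw [hcl]; trivial)
    intro z hz hzi
    have h2 := hω z hz
    rw [mem_singleton_iff] at h2
    have h3 : ω z = true := hzi
    rw [h2] at h3
    exact absurd h3 (by simp)
  have hnull := measure_mono_null hsub hz
  have hval : law p (Set.pi (K : Set Site) (fun _ => ({false} : Set Bool)))
      = ENNReal.ofReal (1 - p) ^ K.card := by
    unfold law
    rw [Measure.infinitePi_pi]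
    · rw [Finset.prod_const, bern_false]
    · intro i _; exact measurableSet_singleton _
  rw [hval] at hnull
  have hpos : 0 < ENNReal.ofReal (1 - p) := ENNReal.ofReal_pos.mpr (by linarith)
  exact (ENNReal.pow_pos hpos K.card).ne' hnull

theorem pc_eq_one (h : ∀ θ, U.Stable θ) : U.pc = 1 := by
  refine le_antisymm U.pc_le_one (le_csInf ⟨1, by norm_num, le_rfl, U.law_one_percolation⟩ ?_)
  rintro q ⟨hq0, hq1, hq2⟩
  by_contra hcon
  exact U.law_percolation_ne_one h hq0 (not_le.mp hcon) hq2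

theorem time_eq_zero : law 1 {ω | U.time ω = 0} = 1 := by
  have := law_prob (p := 1) (by norm_num) le_rfl
  have hm : MeasurableSet {ω | U.time ω = 0} := U.measurable_time (measurableSet_singleton 0)
  rw [← prob_compl_eq_zero_iff hm]
  refine measure_mono_null ?_ (law_one_true 0)
  intro ω hω h
  apply hω
  refine le_antisymm ?_ bot_le
  refine (iInf₂_le 0 h).trans ?_
  simp

theorem empty_notMem (hU : U.Subcritical) : ∅ ∉ U.rules := by
  intro h
  have hno : ∀ θ, ¬ U.Stable θ := by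
    intro θ hθ
    obtain ⟨y, hy, -⟩ := (U.stable_iff θ).mp hθ ∅ h
    simp at hy
  have := hU 0
  simp [hno] at this

/-- the main dichotomy -/
theorem dichotomy (hU : U.Subcritical) (hperc : law U.pc U.percolation = 1) :
    ((∃ θ, ¬ U.Stable θ) ∧ 0 < U.pc ∧ U.pc < 1 ∧ ∫⁻ ω, U.time ω ∂(law U.pc) = ⊤) ∨
    ((∀ θ, U.Stable θ) ∧ U.pc = 1 ∧ law U.pc {ω | U.time ω = 0} = 1) := by
  by_cases h : ∀ θ, U.Stable θ
  · right
    refine ⟨h, U.pc_eq_one h, ?_⟩
    rw [U.pc_eq_one h]
    exact U.time_eq_zero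
  · left
    push Not at h
    obtain ⟨θ, hθ⟩ := h
    have hθ' := hθ
    rw [U.stable_iff] at hθ'
    push Not at hθ'
    obtain ⟨X, hX, hX2⟩ := hθ'
    exact ⟨⟨θ, hθ⟩, U.pc_pos (U.empty_notMem hU) hperc, U.pc_lt_one hX hX2,
      U.mean_eq_top (U.empty_notMem hU) hperc hX hX2⟩

theorem mean_eq_zero : ∫⁻ ω, U.time ω ∂(law 1) = 0 := by
  have := law_prob (p := 1) (by norm_num) le_rfl
  rw [lintegral_eq_zero_iff U.measurable_time]
  have hm : MeasurableSet {ω | U.time ω = 0} := U.measurable_time (measurableSet_singleton 0)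
  have h := (prob_compl_eq_zero_iff hm).mpr U.time_eq_zero
  exact h

/-- the main dichotomy -/
theorem dichotomy' (hU : U.Subcritical) (hperc : law U.pc U.percolation = 1) :
    ((∃ θ, ¬ U.Stable θ) ∧ 0 < U.pc ∧ U.pc < 1 ∧ ∫⁻ ω, U.time ω ∂(law U.pc) = ⊤) ∨
    ((∀ θ, U.Stable θ) ∧ U.pc = 1 ∧ ∫⁻ ω, U.time ω ∂(law U.pc) = 0) := by
  rcases U.dichotomy hU hperc with h | ⟨h1, h2, -⟩
  · exact Or.inl h
  · refine Or.inr ⟨h1, h2, ?_⟩
    rw [h2]; exact U.mean_eq_zero

end UpdateFamily

end Helper496.UBoot
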